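import Mathlib
import Pool.Agent.Helper4.FSS.Defs

/-!
Block FSS-PA of MP_0f943d_al (helper46): the natural parent map.
-/

set_option autoImplicit false

namespace Pool.Helper4.FSS

open Set

namespace PA

variable {S N : Type*}

/-- the marked points of the children -/
def R (X : Sys S N) (Q : N → Set S) (B : N) : Set S := {r | ∃ C ∈ X.ch B, r ∈ Q C}

theorem isNode_ch {X : Sys S N} {B C : N} (hB : X.IsNode B) (hC : C ∈ X.ch B) : X.IsNode C := by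
  obtain ⟨n, hn⟩ := hB
  exact ⟨n + 1, B, hn, hC⟩

/-- a node together with a marked point of a child -/
def T (X : Sys S N) (Q : N → Set S) : Type _ :=
  {p : N × S // X.IsNode p.1 ∧ p.2 ∈ R X Q p.1}

section

variable (X : Sys S N) (hX : X.Good) (Q : N → Set S)
    (Q_sub : ∀ B, X.IsNode B → Q B ⊆ X.pts B)
    (Q1 : ∀ B, X.IsNode B → ∀ x ∈ X.pts B, ∃ q ∈ Q B, ∀ h ∈ X.sim B B, (h q = q ↔ h x = x))
    (Q_nat : ∀ B B', X.IsNode B → X.IsNode B' → ∀ h ∈ X.sim B B', ∀ q ∈ Q B, h q ∈ Q B')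

include hX Q_sub in
theorem R_sub {B : N} (hB : X.IsNode B) {r : S} (hr : r ∈ R X Q B) : r ∈ X.pts B := by
  obtain ⟨C, hC, hrC⟩ := hr
  exact hX.ch_sub B hB C hC (Q_sub C (isNode_ch hB hC) hrC)

include hX Q_sub Q_nat in
theorem R_nat {B B' : N} (hB : X.IsNode B) (hB' : X.IsNode B') {h : S → S} (hh : h ∈ X.sim B B')
    {r : S} (hr : r ∈ R X Q B) : h r ∈ R X Q B' := by
  obtain ⟨C, hC, hrC⟩ := hr
  obtain ⟨C', hC', k, hk, hkx⟩ := hX.res B B' hB hB' h hh C hC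
  refine ⟨C', hC', ?_⟩
  rw [← hkx r (Q_sub C (isNode_ch hB hC) hrC)]
  exact Q_nat C C' (isNode_ch hB hC) (isNode_ch hB' hC') k hk r hrC

/-- being related by an arrow -/
def Rel (t t' : T X Q) : Prop := ∃ h ∈ X.sim t.1.1 t'.1.1, h t.1.2 = t'.1.2

include hX Q_sub in
theorem rel_equiv : Equivalence (Rel X Q) := by
  refine ⟨?_, ?_, ?_⟩
  · rintro ⟨⟨B, r⟩, hB, hr⟩
    obtain ⟨h, hh, hx⟩ := hX.one B hB
    exact ⟨h, hh, hx r (R_sub X hX Q Q_sub hB hr)⟩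
  · rintro ⟨⟨B, r⟩, hB, hr⟩ ⟨⟨B', r'⟩, hB', hr'⟩ ⟨h, hh, hx⟩
    obtain ⟨k, hk, hkx⟩ := hX.inv B B' hB hB' h hh
    refine ⟨k, hk, ?_⟩
    have := hkx r (R_sub X hX Q Q_sub hB hr)
    simp only at hx ⊢
    rw [← hx, this]
  · rintro ⟨⟨B, r⟩, hB, hr⟩ ⟨⟨B', r'⟩, hB', hr'⟩ ⟨⟨B'', r''⟩, hB'', hr''⟩ ⟨h, hh, hx⟩ ⟨k, hk, kx⟩
    obtain ⟨l, hl, hlx⟩ := hX.comp B B' B'' hB hB' hB'' h hh k hk
    refine ⟨l, hl, ?_⟩
    simp only at hx kx ⊢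
    rw [hlx r (R_sub X hX Q Q_sub hB hr), hx, kx]

/-- the setoid -/
def sd : Setoid (T X Q) := ⟨Rel X Q, rel_equiv X hX Q Q_sub⟩

/-- the representative -/
noncomputable def rep (t : T X Q) : T X Q := (Quotient.mk (sd X hX Q Q_sub) t).out

theorem rep_rel (t : T X Q) : Rel X Q (rep X hX Q Q_sub t) t :=
  Quotient.exact (s := sd X hX Q Q_sub) (Quotient.out_eq (Quotient.mk (sd X hX Q Q_sub) t))

theorem rep_eq {t t' : T X Q} (h : Rel X Q t t') : rep X hX Q Q_sub t = rep X hX Q Q_sub t' := by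
  have h' : Quotient.mk (sd X hX Q Q_sub) t = Quotient.mk (sd X hX Q Q_sub) t' :=
    Quotient.sound h
  unfold rep
  rw [h']

include hX Q_sub Q1 in
theorem exists_q0 (t : T X Q) : ∃ q, q ∈ Q t.1.1 ∧
    (∀ h ∈ X.sim t.1.1 t.1.1, (h q = q ↔ h t.1.2 = t.1.2)) ∧ (t.1.2 ∈ Q t.1.1 → q = t.1.2) := by
  by_cases hr : t.1.2 ∈ Q t.1.1
  · exact ⟨t.1.2, hr, fun h _ => Iff.rfl, fun _ => rfl⟩
  · obtain ⟨q, hq, hqs⟩ := Q1 t.1.1 t.2.1 t.1.2 (R_sub X hX Q Q_sub t.2.1 t.2.2)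
    exact ⟨q, hq, hqs, fun h => absurd h hr⟩

open Classical in
/-- the parent map -/
noncomputable def pa (B : N) (r : S) : S :=
  if h : X.IsNode B ∧ r ∈ R X Q B then
    (rep_rel X hX Q Q_sub ⟨(B, r), h⟩).choose
      (exists_q0 X hX Q Q_sub Q1 (rep X hX Q Q_sub ⟨(B, r), h⟩)).choose
  else r

/-- the characterisation of the parent map -/
theorem pa_spec (B : N) (hB : X.IsNode B) (r : S) (hr : r ∈ R X Q B) :
    ∃ s ∈ X.sim (rep X hX Q Q_sub ⟨(B, r), hB, hr⟩).1.1 B,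
      s (rep X hX Q Q_sub ⟨(B, r), hB, hr⟩).1.2 = r ∧
      pa X hX Q Q_sub Q1 B r =
        s (exists_q0 X hX Q Q_sub Q1 (rep X hX Q Q_sub ⟨(B, r), hB, hr⟩)).choose := by
  have hs := (rep_rel X hX Q Q_sub ⟨(B, r), hB, hr⟩).choose_spec
  refine ⟨_, hs.1, hs.2, ?_⟩
  unfold pa
  rw [dif_pos ⟨hB, hr⟩]

include Q1 in
/-- two arrows which agree at `r₀` agree at `q₀` -/
theorem indep (t : T X Q) (B : N) (hB : X.IsNode B) (s s' : S → S) (hs : s ∈ X.sim t.1.1 B)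
    (hs' : s' ∈ X.sim t.1.1 B) (h : s t.1.2 = s' t.1.2) :
    s (exists_q0 X hX Q Q_sub Q1 t).choose = s' (exists_q0 X hX Q Q_sub Q1 t).choose := by
  obtain ⟨hq0, hst, -⟩ := (exists_q0 X hX Q Q_sub Q1 t).choose_spec
  set q0 := (exists_q0 X hX Q Q_sub Q1 t).choose with hq0def
  have hB0 := t.2.1
  have hr0 : t.1.2 ∈ X.pts t.1.1 := R_sub X hX Q Q_sub hB0 t.2.2
  have hq0p : q0 ∈ X.pts t.1.1 := Q_sub _ hB0 hq0
  obtain ⟨k, hk, hkx⟩ := hX.inv _ _ hB0 hB s hs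
  obtain ⟨l, hl, hlx⟩ := hX.comp _ _ _ hB0 hB hB0 s' hs' k hk
  have h1 : l t.1.2 = t.1.2 := by rw [hlx _ hr0, ← h, hkx _ hr0]
  have h2 : l q0 = q0 := (hst l hl).2 h1
  have h3 : k (s' q0) = k (s q0) := by rw [← hlx _ hq0p, h2, hkx _ hq0p]
  have hkinj := (hX.maps _ _ hB hB0 k hk).injOn
  have ms := (hX.maps _ _ hB0 hB s hs).mapsTo hq0p
  have ms' := (hX.maps _ _ hB0 hB s' hs').mapsTo hq0p
  exact (hkinj ms' ms h3).symm

end

end PA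

theorem exists_pa {S N : Type*} (X : Sys S N) (hX : X.Good) (Q : N → Set S)
    (Q_sub : ∀ B, X.IsNode B → Q B ⊆ X.pts B)
    (Q1 : ∀ B, X.IsNode B → ∀ x ∈ X.pts B, ∃ q ∈ Q B, ∀ h ∈ X.sim B B, (h q = q ↔ h x = x))
    (Q2 : ∀ B, X.IsNode B → ∀ q ∈ Q B, ∀ q' ∈ Q B,
        (∀ h ∈ X.sim B B, (h q = q ↔ h q' = q')) → ∃ s ∈ X.sim B B, s q = q')
    (Q_nat : ∀ B B', X.IsNode B → X.IsNode B' → ∀ h ∈ X.sim B B', ∀ q ∈ Q B, h q ∈ Q B') :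
    ∃ pa : N → S → S,
      (∀ B, X.IsNode B → ∀ C ∈ X.ch B, ∀ r ∈ Q C, pa B r ∈ Q B) ∧
      (∀ B B', X.IsNode B → X.IsNode B' → ∀ h ∈ X.sim B B', ∀ C ∈ X.ch B, ∀ r ∈ Q C,
        pa B' (h r) = h (pa B r)) ∧
      (∀ B, X.IsNode B → ∀ C ∈ X.ch B, ∀ r ∈ Q C, r ∈ Q B → pa B r = r) ∧
      (∀ B, X.IsNode B → ∀ C ∈ X.ch B, ∀ r ∈ Q C, ∀ h ∈ X.sim B B,
        (h (pa B r) = pa B r ↔ h r = r)) ∧
      (∀ B, X.IsNode B → ∀ q ∈ Q B, ∃ C ∈ X.ch B, ∃ r ∈ Q C, pa B r = q) := by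
  have key : ∀ B (hB : X.IsNode B) r (hr : r ∈ PA.R X Q B),
      ∃ (t : PA.T X Q) (q0 : S) (s : S → S), t = PA.rep X hX Q Q_sub ⟨(B, r), hB, hr⟩ ∧
        q0 = (PA.exists_q0 X hX Q Q_sub Q1 t).choose ∧
        s ∈ X.sim t.1.1 B ∧ s t.1.2 = r ∧ PA.pa X hX Q Q_sub Q1 B r = s q0 := by
    intro B hB r hr
    obtain ⟨s, hs, hsr, he⟩ := PA.pa_spec X hX Q Q_sub Q1 B hB r hr
    exact ⟨_, _, s, rfl, rfl, hs, hsr, he⟩
  have hmem : ∀ B (hB : X.IsNode B) r (hr : r ∈ PA.R X Q B),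
      PA.pa X hX Q Q_sub Q1 B r ∈ Q B := by
    intro B hB r hr
    obtain ⟨t, q0, s, -, hq, hs, -, he⟩ := key B hB r hr
    rw [he]
    refine Q_nat _ _ t.2.1 hB s hs q0 ?_
    rw [hq]
    exact (PA.exists_q0 X hX Q Q_sub Q1 t).choose_spec.1
  have hnat : ∀ B B', X.IsNode B → X.IsNode B' → ∀ h ∈ X.sim B B', ∀ r ∈ PA.R X Q B,
      PA.pa X hX Q Q_sub Q1 B' (h r) = h (PA.pa X hX Q Q_sub Q1 B r) := by
    intro B B' hB hB' h hh r hr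
    have hr' : h r ∈ PA.R X Q B' := PA.R_nat X hX Q Q_sub Q_nat hB hB' hh hr
    obtain ⟨t, q0, s, ht, hq, hs, hsr, he⟩ := key B hB r hr
    obtain ⟨t', q0', s', ht', hq', hs', hsr', he'⟩ := key B' hB' (h r) hr'
    have htt : t = t' := by
      rw [ht, ht']
      exact PA.rep_eq X hX Q Q_sub ⟨h, hh, rfl⟩
    subst htt
    rw [he, he', hq', hq]
    obtain ⟨l, hl, hlx⟩ := hX.comp _ _ _ t.2.1 hB hB' s hs h hh
    have hr0 : t.1.2 ∈ X.pts t.1.1 := PA.R_sub X hX Q Q_sub t.2.1 t.2.2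
    have hq0p : (PA.exists_q0 X hX Q Q_sub Q1 t).choose ∈ X.pts t.1.1 :=
      Q_sub _ t.2.1 (PA.exists_q0 X hX Q Q_sub Q1 t).choose_spec.1
    rw [← hlx _ hq0p]
    refine PA.indep X hX Q Q_sub Q1 t B' hB' s' l hs' hl ?_
    rw [hsr', hlx _ hr0, hsr]
  have hstab : ∀ B, X.IsNode B → ∀ r ∈ PA.R X Q B, ∀ h ∈ X.sim B B,
      (h (PA.pa X hX Q Q_sub Q1 B r) = PA.pa X hX Q Q_sub Q1 B r ↔ h r = r) := by
    intro B hB r hr h hh
    obtain ⟨t, q0, s, ht, hq, hs, hsr, he⟩ := key B hB r hr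
    obtain ⟨hq0, hst, -⟩ := (PA.exists_q0 X hX Q Q_sub Q1 t).choose_spec
    rw [← hq] at hq0 hst
    have hr0 : t.1.2 ∈ X.pts t.1.1 := PA.R_sub X hX Q Q_sub t.2.1 t.2.2
    have hq0p : q0 ∈ X.pts t.1.1 := Q_sub _ t.2.1 hq0
    obtain ⟨k, hk, hkx⟩ := hX.inv _ _ t.2.1 hB s hs
    obtain ⟨m, hm, hmx⟩ := hX.comp _ _ _ t.2.1 hB hB s hs h hh
    obtain ⟨l, hl, hlx⟩ := hX.comp _ _ _ t.2.1 hB t.2.1 m hm k hk
    have hkinj := (hX.maps _ _ hB t.2.1 k hk).injOn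
    have gen : ∀ x ∈ X.pts t.1.1, (l x = x ↔ h (s x) = s x) := by
      intro x hx
      have hsx := (hX.maps _ _ t.2.1 hB s hs).mapsTo hx
      have hhsx := (hX.maps _ _ hB hB h hh).mapsTo hsx
      rw [hlx x hx, hmx x hx]
      constructor
      · intro h1
        refine hkinj hhsx hsx ?_
        rw [h1, hkx x hx]
      · intro h1
        rw [h1, hkx x hx]
    rw [he, ← gen q0 hq0p, hst l hl, gen _ hr0, hsr]
  refine ⟨PA.pa X hX Q Q_sub Q1, ?_, ?_, ?_, ?_, ?_⟩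
  · intro B hB C hC r hr
    exact hmem B hB r ⟨C, hC, hr⟩
  · intro B B' hB hB' h hh C hC r hr
    exact hnat B B' hB hB' h hh r ⟨C, hC, hr⟩
  · intro B hB C hC r hr hrB
    obtain ⟨t, q0, s, ht, hq, hs, hsr, he⟩ := key B hB r ⟨C, hC, hr⟩
    obtain ⟨hq0, hst, hl⟩ := (PA.exists_q0 X hX Q Q_sub Q1 t).choose_spec
    rw [← hq] at hq0 hst hl
    have hr0 : t.1.2 ∈ X.pts t.1.1 := PA.R_sub X hX Q Q_sub t.2.1 t.2.2
    obtain ⟨k, hk, hkx⟩ := hX.inv _ _ t.2.1 hB s hs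
    have h1 : t.1.2 ∈ Q t.1.1 := by
      have := Q_nat _ _ hB t.2.1 k hk r hrB
      rwa [← hsr, hkx _ hr0] at this
    rw [he, hl h1, hsr]
  · intro B hB C hC r hr h hh
    exact hstab B hB r ⟨C, hC, hr⟩ h hh
  · intro B hB q hq
    have hqp := Q_sub B hB hq
    obtain ⟨C, ⟨hC, hqC⟩, -⟩ := hX.ch_part B hB q hqp
    have hCn := PA.isNode_ch hB hC
    obtain ⟨r, hr, hrs⟩ := Q1 C hCn q hqC
    have hrp : r ∈ X.pts C := Q_sub C hCn hr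
    have hrB : r ∈ X.pts B := hX.ch_sub B hB C hC hrp
    have hrR : r ∈ PA.R X Q B := ⟨C, hC, hr⟩
    have hst : ∀ s ∈ X.sim B B, (s r = r ↔ s q = q) := by
      intro s hs
      obtain ⟨C', hC', k, hk, hkx⟩ := hX.res B B hB hB s hs C hC
      have hC'n := PA.isNode_ch hB hC'
      have hmk := (hX.maps C C' hCn hC'n k hk).mapsTo
      constructor
      · intro h1
        have h2 : k r = r := by rw [hkx r hrp, h1]
        have h3 : r ∈ X.pts C' := by have := hmk hrp; rwa [h2] at this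
        have h4 : C' = C := (hX.ch_part B hB r hrB).unique ⟨hC', h3⟩ ⟨hC, hrp⟩
        subst h4
        have h5 := (hrs k hk).1 h2
        rwa [hkx q hqC] at h5
      · intro h1
        have h2 : k q = q := by rw [hkx q hqC, h1]
        have h3 : q ∈ X.pts C' := by have := hmk hqC; rwa [h2] at this
        have h4 : C' = C := (hX.ch_part B hB q hqp).unique ⟨hC', h3⟩ ⟨hC, hqC⟩
        subst h4
        have h5 := (hrs k hk).2 h2
        rwa [hkx r hrp] at h5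
    obtain ⟨s, hs, hsq⟩ := Q2 B hB (PA.pa X hX Q Q_sub Q1 B r) (hmem B hB r hrR) q hq (by
      intro h hh
      rw [hstab B hB r hrR h hh, hst h hh])
    obtain ⟨C', hC', hrC'⟩ := PA.R_nat X hX Q Q_sub Q_nat hB hB hs hrR
    refine ⟨C', hC', s r, hrC', ?_⟩
    rw [hnat B B hB hB s hs r hrR, hsq]

end Pool.Helper4.FSS
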